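import Pool.Agent.W711.SCP.Eqv

set_option autoImplicit false

namespace Pool.Agent.Results.MP_156639_an.LocalIdentities

open TopologicalSpace Pool.Agent.W711.SCP

/-- A real Banach space `Y` is isomorphic to a complemented subspace of a Banach space with the
separable complementation property if and only if every separable subspace of `Y` is fixed
pointwise by a bounded operator of `Y` with separable range.  So the question has the answer yes
if and only if these operators imply the separable complementation property, and it is enough to
consider the sums of `Y` with `ℓ¹`-sums of separable Banach spaces. -/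
theorem result :
    (∀ (Y : Type) [NormedAddCommGroup Y] [NormedSpace ℝ Y] [CompleteSpace Y],
      (∃ (X : Type) (_ : NormedAddCommGroup X) (_ : NormedSpace ℝ X) (_ : CompleteSpace X),
        HasSCP X ∧ ∃ Z : Submodule ℝ X, Z.ClosedComplemented ∧ Nonempty (Y ≃L[ℝ] Z)) ↔
      HasLocId Y) ∧
    (Question ↔ ∀ (Y : Type) [NormedAddCommGroup Y] [NormedSpace ℝ Y] [CompleteSpace Y],
      HasLocId Y → HasSCP Y) ∧
    (Question ↔ ∀ (Y : Type) [NormedAddCommGroup Y] [NormedSpace ℝ Y] [CompleteSpace Y]
      (I : Type) (E : I → Type) [∀ i, NormedAddCommGroup (E i)] [∀ i, NormedSpace ℝ (E i)]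
      [∀ i, CompleteSpace (E i)] [∀ i, SeparableSpace (E i)],
      HasSCP (Y × lp E 1) → HasSCP Y) :=
  ⟨fun Y _ _ _ => complemented_iff Y, question_iff, question_iff_prod⟩

end Pool.Agent.Results.MP_156639_an.LocalIdentities
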