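import Pool.Agent.W711.SCP.Eqv

set_option autoImplicit false

namespace Pool.Agent.Results.MP_156639_an.PolynomialGap

open TopologicalSpace Pool.Agent.W711.SCP

/-- If every separable subspace `S` of the real Banach space `Y` is fixed pointwise by an operator
`R` with separable range such that some real polynomial `g` with `g(0) = 0`, `g(1) = 1` has
`‖g(R) - g(R)²‖ < 1/4`, then `Y` has the separable complementation property. -/
theorem result :
    ∀ (Y : Type) [NormedAddCommGroup Y] [NormedSpace ℝ Y] [CompleteSpace Y],
      (∀ S : Submodule ℝ Y, IsSeparable (S : Set Y) →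
        ∃ R : Y →L[ℝ] Y, IsSeparable (Set.range R) ∧ (∀ s ∈ S, R s = s) ∧
          ∃ g : Polynomial ℝ, g.eval 0 = 0 ∧ g.eval 1 = 1 ∧
            ‖Polynomial.aeval R g - Polynomial.aeval R g * Polynomial.aeval R g‖ < 1 / 4) →
      HasSCP Y := by
  intro Y _ _ _ h
  refine scp_of_quarter fun S hS => ?_
  obtain ⟨R, hR, hRS, g, hg0, hg1, hn⟩ := h S hS
  refine ⟨Polynomial.aeval R g, ?_, ?_, hn⟩
  · obtain ⟨q, hq⟩ : Polynomial.X ∣ g := by
      rw [Polynomial.X_dvd_iff, Polynomial.coeff_zero_eq_eval_zero]
      exact hg0
    refine hR.mono ?_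
    rintro _ ⟨y, rfl⟩
    refine ⟨Polynomial.aeval R q y, ?_⟩
    rw [hq, map_mul, Polynomial.aeval_X]
    rfl
  · intro s hs
    have key : ∀ p : Polynomial ℝ, Polynomial.aeval R p s = p.eval 1 • s := by
      intro p
      induction p using Polynomial.induction_on' with
      | add p q hp hq =>
        rw [map_add, ContinuousLinearMap.add_apply, hp, hq, Polynomial.eval_add, add_smul]
      | monomial n a =>
        rw [Polynomial.aeval_monomial, Polynomial.eval_monomial, one_pow, mul_one,
          Algebra.algebraMap_eq_smul_one, smul_mul_assoc, one_mul,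
          ContinuousLinearMap.smul_apply]
        congr 1
        induction n with
        | zero => rfl
        | succ n ih =>
          rw [pow_succ]
          change (R ^ n) (R s) = s
          rw [hRS s hs, ih]
    rw [key g, hg1, one_smul]

end Pool.Agent.Results.MP_156639_an.PolynomialGap
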