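import Pool.Agent.W711.SCP.Eqv

set_option autoImplicit false

namespace Pool.Agent.Results.MP_156639_an.SeparableComplement

open TopologicalSpace Pool.Agent.W711.SCP

/-- If `X` has the separable complementation property, then so has every subspace `Y` which is
complemented in `X` and has a separable complement. -/
theorem result :
    ∀ (X : Type) [NormedAddCommGroup X] [NormedSpace ℝ X] [CompleteSpace X], HasSCP X →
      ∀ Y Z : Submodule ℝ X, IsCompl Y Z → IsClosed (Y : Set X) → IsClosed (Z : Set X) →
        IsSeparable (Z : Set X) → HasSCP Y := by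
  intro X _ _ _ hX Y Z hYZ hY hZ hZs
  obtain ⟨π, hπ, hker⟩ : ∃ π : X →L[ℝ] Y, (∀ y : Y, π y = y) ∧ ∀ x, π x = 0 ↔ x ∈ Z := by
    haveI := hY.completeSpace_coe
    haveI := hZ.completeSpace_coe
    refine ⟨Y.linearProjOfClosedCompl Z hYZ hY hZ, ?_, ?_⟩
    · intro y
      exact Submodule.linearProjOfIsCompl_apply_left hYZ y
    · intro x
      exact Submodule.linearProjOfIsCompl_apply_eq_zero_iff hYZ
  refine scp_of_separable_compl hX Y π hπ (hZs.mono ?_)
  intro x hx
  exact (hker x).1 hx

end Pool.Agent.Results.MP_156639_an.SeparableComplement
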